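import Pool.Agent.MWFE.StmtsC
import Pool.Agent.Helper16_MWE.RED
import Pool.Agent.Helper11_MWE.PLMb

/-!
# Squad MWFE, row REZ: reduction to canonical chains (after `Helper16_MWE/RED.lean`)
-/

set_option autoImplicit false

namespace Pool.Agent.MWFE.H98

open Pool.Agent.Helper14_MV Pool.Agent.Helper2_MV Pool.Agent.MVD
open Pool.Agent.MWE (Can XX fxy dxy dx dy up cp L4 pr Xs xl isx Fs nd nr)
open Pool.Agent.MWE.H16 (ins2 nd_lt last_occ count_map_on)

theorem nr_le {c c' : List ℕ} (h : c'.Sublist c) : nr c' ≤ nr c := by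
  apply Finset.card_le_card
  intro b hb
  rw [Finset.mem_filter, List.mem_toFinset] at hb ⊢
  exact ⟨h.subset hb.1, hb.2.trans (h.count_le b)⟩

theorem rep_sub (σ : ℕ → List ℕ) (k a b : ℕ) (h : σ a = [b]) :
    (List.replicate k a).flatMap σ = List.replicate k b := by
  induction k with
  | zero => rfl
  | succ k ih =>
    rw [List.replicate_succ, List.flatMap_cons, ih, h, List.replicate_succ]
    rfl

theorem tk_sub (σ : ℕ → List ℕ) (n z z' v v' l : ℕ) (h : σ z = [z']) (h2 : σ v = [v']) :
    (tk n z v l).flatMap σ = tk n z' v' l := by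
  unfold tk
  rw [List.flatMap_append, List.flatMap_cons, rep_sub σ _ _ _ h, rep_sub σ _ _ _ h, h2]
  rfl

theorem kz1 (n z : ℕ) : KZ n z [0, 3] = tk n z 0 0 ++ tk n z 3 1 := by
  simp [KZ, lam]

theorem kz2 (n z : ℕ) : KZ n z [3, 0] = tk n z 3 1 ++ tk n z 0 0 := by
  simp [KZ, lam]

theorem eg_sub (σ : ℕ → List ℕ) (R X L : List ℕ)
    (hR : ∀ r ∈ R, r ≠ 0 → r ≠ 1 → σ (3 * (r - 2) + 1) = [3 * (r - 2) + 1])
    (hs : ∀ r, σ (3 * r + 2) = [3 * r + 2]) :
    (Eg R X L).flatMap σ = Eg R (X.flatMap σ) (L.flatMap σ) := by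
  unfold Eg Bw
  rw [List.flatMap_assoc]
  apply List.flatMap_congr
  intro r hr
  rw [List.flatMap_append, List.flatMap_singleton, hs]
  show List.flatMap σ (if r = 0 then X else if r = 1 then L else [3 * (r - 2) + 1]) ++ [3 * r + 2] =
    (if r = 0 then List.flatMap σ X else if r = 1 then List.flatMap σ L else [3 * (r - 2) + 1]) ++
      [3 * r + 2]
  by_cases h0 : r = 0
  · rw [if_pos h0, if_pos h0]
  · rw [if_neg h0, if_neg h0]
    by_cases h1 : r = 1
    · rw [if_pos h1, if_pos h1]
    · rw [if_neg h1, if_neg h1, List.flatMap_singleton, hR r hr h0 h1]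

/-- the general case -/
theorem main {n : ℕ} {β : FIC} {c : List ℕ} (hc0 : c ≠ [])
    (H : ∀ (m : ℕ) (R c' : List ℕ), Can m c' → R.Perm (List.range (m + 2)) → Bfr R 0 1 →
      c' ≠ [] → nd c' = nd c → nr c' = nr c → EZ n β m R c') (p q r : List ℕ) (z x y : ℕ)
    (hM : Mult c (p ++ (tk n z x 0 ++ (tk n z y 1 ++ (q ++ x :: (c ++ y :: r))))))
    (hzc : z ∉ c) (hxc : x ∉ c) (hyc : y ∉ c) :
    RR β (p ++ (tk n z x 0 ++ (tk n z y 1 ++ (q ++ x :: (c ++ y :: r)))))
      (p ++ (tk n z y 1 ++ (tk n z x 0 ++ (q ++ x :: (c ++ y :: r))))) := by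
  obtain ⟨D, hD⟩ : ∃ D : List ℕ, D = c.filter (fun a => decide (c.count a = 1)) := ⟨_, rfl⟩
  obtain ⟨U, hU⟩ : ∃ U : List ℕ, U = (c.filter (fun a => decide (2 ≤ c.count a))).dedup :=
    ⟨_, rfl⟩
  have mD : ∀ a, a ∈ D ↔ a ∈ c ∧ c.count a = 1 := by
    intro a
    rw [hD, List.mem_filter, decide_eq_true_iff]
  have mU : ∀ a, a ∈ U ↔ a ∈ c ∧ 2 ≤ c.count a := by
    intro a
    rw [hU, List.mem_dedup, List.mem_filter, decide_eq_true_iff]
  have hDn : D.Nodup := by
    rw [List.nodup_iff_count_le_one]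
    intro a
    by_cases ha : a ∈ D
    · rw [hD]
      refine le_trans (List.Sublist.count_le a List.filter_sublist) ?_
      exact ((mD a).1 ha).2.le
    · rw [List.count_eq_zero_of_not_mem ha]
      exact Nat.zero_le _
  have ctk : ∀ a v l, a ≠ z → a ≠ v → (tk n z v l).count a = 0 := by
    intro a v l h1 h2
    apply List.count_eq_zero_of_not_mem
    unfold tk
    intro h3
    rcases List.mem_append.1 h3 with h4 | h4
    · exact h1 (List.eq_of_mem_replicate h4)
    · rcases List.mem_cons.1 h4 with h5 | h5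
      · exact h2 h5
      · exact h1 (List.eq_of_mem_replicate h5)
  have hmem : ∀ a ∈ D, a ∈ p ∨ a ∈ q ∨ a ∈ r := by
    intro a ha
    obtain ⟨h1, h2⟩ := (mD a).1 ha
    have h3 := hM a h1
    have hax : x ≠ a := fun e => hxc (e ▸ h1)
    have hay : y ≠ a := fun e => hyc (e ▸ h1)
    have haz : z ≠ a := fun e => hzc (e ▸ h1)
    rw [List.count_append, List.count_append, List.count_append, List.count_append,
      ctk a x 0 haz.symm hax.symm, ctk a y 1 haz.symm hay.symm,
      List.count_cons_of_ne hax, List.count_append,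
      List.count_cons_of_ne hay, h2] at h3
    rw [← List.count_pos_iff, ← List.count_pos_iff, ← List.count_pos_iff]
    omega
  obtain ⟨R, g, M, hR, hb, hI, g0, g3, gD, gU⟩ :=
    ins2 p q r D x y (fun j => [U.getD j z]) hDn hmem
  obtain ⟨ρ, hρ⟩ : ∃ ρ : ℕ → ℕ, ρ = fun a => if a ∈ D then 3 * D.idxOf a + 1 else
    3 * (U.idxOf a + 2) := ⟨_, rfl⟩
  have ρD : ∀ a ∈ D, ρ a = 3 * D.idxOf a + 1 := by
    intro a ha
    rw [hρ]
    exact if_pos ha
  have ρU : ∀ a, a ∉ D → ρ a = 3 * (U.idxOf a + 2) := by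
    intro a ha
    rw [hρ]
    exact if_neg ha
  have cU : ∀ a ∈ c, a ∉ D → a ∈ U := by
    intro a ha hn
    rw [mU]
    rw [mD] at hn
    have h1 : 0 < c.count a := List.count_pos_iff.2 ha
    refine ⟨ha, ?_⟩
    by_contra h2
    exact hn ⟨ha, by omega⟩
  have gρ : ∀ a ∈ c, g (ρ a) = [a] := by
    intro a ha
    by_cases h1 : a ∈ D
    · have h2 : D.idxOf a < D.length := List.idxOf_lt_length_iff.2 h1
      rw [ρD a h1, gD _ h2, List.getElem_idxOf]
    · have h2 : U.idxOf a < U.length := List.idxOf_lt_length_iff.2 (cU a ha h1)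
      rw [ρU a h1, gU]
      show [U.getD (U.idxOf a) z] = [a]
      rw [List.getD_eq_getElem U z h2, List.getElem_idxOf]
  have ρi : ∀ a ∈ c, ∀ b ∈ c, ρ a = ρ b → a = b := by
    intro a ha b hb' hab
    have h1 := gρ a ha
    rw [hab, gρ b hb'] at h1
    exact (List.singleton_injective h1).symm
  have cnt : ∀ a ∈ c, (c.map ρ).count (ρ a) = c.count a :=
    fun a ha => count_map_on (fun b hb' => ρi b hb' a ha)
  have flat : (c.map ρ).flatMap g = c := by
    rw [List.flatMap_map]
    have h1 : c.flatMap (fun a => g (ρ a)) = c.flatMap (fun a => [a]) :=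
      List.flatMap_congr gρ
    rw [h1]
    exact List.flatMap_singleton' c
  have hcan : Can D.length (c.map ρ) := by
    constructor
    · intro d hd
      have h1 : D[d] ∈ D := List.getElem_mem _
      obtain ⟨h2, h3⟩ := (mD _).1 h1
      have h4 : ρ D[d] = 3 * d + 1 := by
        rw [ρD _ h1, hDn.idxOf_getElem]
      rw [← h4, cnt _ h2, h3]
    · intro a' ha'
      obtain ⟨a, ha, rfl⟩ := List.mem_map.1 ha'
      by_cases h1 : a ∈ D
      · left
        exact ⟨D.idxOf a, List.idxOf_lt_length_iff.2 h1, ρD a h1⟩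
      · right
        rw [cnt a ha, ρU a h1]
        exact ⟨by omega, by omega, ((mU a).1 (cU a ha h1)).2⟩
  have htf : (c.map ρ).toFinset = c.toFinset.image ρ := by
    ext a
    simp
  have hnd : nd (c.map ρ) = nd c := by
    unfold nd
    rw [htf]
    apply Finset.card_image_of_injOn
    intro a ha b hb' hab
    exact ρi a (List.mem_toFinset.1 ha) b (List.mem_toFinset.1 hb') hab
  have hnr : nr (c.map ρ) = nr c := by
    unfold nr
    have h1 : (c.map ρ).toFinset.filter (fun a => 2 ≤ (c.map ρ).count a) =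
        (c.toFinset.filter (fun a => 2 ≤ c.count a)).image ρ := by
      ext a
      rw [Finset.mem_filter, Finset.mem_image, htf, Finset.mem_image]
      constructor
      · rintro ⟨⟨b, hb1, rfl⟩, hb2⟩
        rw [cnt b (List.mem_toFinset.1 hb1)] at hb2
        exact ⟨b, Finset.mem_filter.2 ⟨hb1, hb2⟩, rfl⟩
      · rintro ⟨b, hb1, rfl⟩
        obtain ⟨hb2, hb3⟩ := Finset.mem_filter.1 hb1
        refine ⟨⟨b, hb2, rfl⟩, ?_⟩
        rw [cnt b (List.mem_toFinset.1 hb2)]
        exact hb3
    rw [h1]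
    apply Finset.card_image_of_injOn
    intro a ha b hb' hab
    exact ρi a (List.mem_toFinset.1 (Finset.mem_filter.1 ha).1) b
      (List.mem_toFinset.1 (Finset.mem_filter.1 hb').1) hab
  have hne : c.map ρ ≠ [] := by
    intro h
    exact hc0 (List.map_eq_nil_iff.1 h)
  have key := H D.length R (c.map ρ) hcan hR hb hne hnd hnr
  -- the heavy letter becomes a local letter
  obtain ⟨σ, hσ⟩ : ∃ σ : ℕ → List ℕ, σ = fun a => if a = 3 * D.length + 1 then
    [3 * (U.length + 2)] else [a] := ⟨_, rfl⟩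
  have σz : σ (3 * D.length + 1) = [3 * (U.length + 2)] := by
    rw [hσ]
    exact if_pos rfl
  have σo : ∀ a, a ≠ 3 * D.length + 1 → σ a = [a] := by
    intro a ha
    rw [hσ]
    exact if_neg ha
  have hc' : 3 * D.length + 1 ∉ c.map ρ := by
    intro h
    rcases hcan.lo _ h with ⟨d, hd, hd2⟩ | ⟨h1, _, _⟩
    · omega
    · omega
  have Lσ : (0 :: (c.map ρ ++ [3])).flatMap σ = 0 :: (c.map ρ ++ [3]) := by
    have h1 : (0 :: (c.map ρ ++ [3])).flatMap σ = (0 :: (c.map ρ ++ [3])).flatMap (fun a => [a]) := by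
      apply List.flatMap_congr
      intro a ha
      apply σo
      intro h2
      rcases List.mem_cons.1 ha with h3 | h3
      · omega
      · rcases List.mem_append.1 h3 with h4 | h4
        · exact hc' (h2 ▸ h4)
        · rw [List.mem_singleton] at h4
          omega
    rw [h1]
    exact List.flatMap_singleton' _
  have hEs : ∀ X : List ℕ, (Eg R X (0 :: (c.map ρ ++ [3]))).flatMap σ =
      Eg R (X.flatMap σ) (0 :: (c.map ρ ++ [3])) := by
    intro X
    rw [eg_sub σ R X _ ?_ ?_, Lσ]
    · intro r' hr' h0 h1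
      have h2 := List.mem_range.1 (hR.mem_iff.1 hr')
      exact σo _ (by omega)
    · intro r'
      exact σo _ (by omega)
  have s0 : σ 0 = [0] := σo 0 (by omega)
  have s3 : σ 3 = [3] := σo 3 (by omega)
  have key2 := RR.sub σ key
  unfold ExZ at key2
  rw [hEs, hEs, kz1, kz2, List.flatMap_append, List.flatMap_append,
    tk_sub σ n _ _ 0 0 0 σz s0, tk_sub σ n _ _ 3 3 1 σz s3] at key2
  have k2 := RR.append (RR.refl (β := β) M) (RR.sub g key2)
  rw [← hI, ← hI] at k2
  have e1 : (0 :: (c.map ρ ++ [3])).flatMap g = x :: (c ++ [y]) := by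
    rw [List.flatMap_cons, List.flatMap_append, flat, g0]
    simp [g3]
  have gz : g (3 * (U.length + 2)) = [z] := by
    rw [gU]
    show [U.getD U.length z] = [z]
    rw [List.getD_eq_default U z (le_refl _)]
  rw [e1, List.flatMap_append, List.flatMap_append, tk_sub g n _ _ 0 x 0 gz g0,
    tk_sub g n _ _ 3 y 1 gz g3] at k2
  simpa using k2

/-- **REZ** -/
theorem rez (hlcf : LcfStmt) : RezStmt := by
  intro n β c hz hIH hc0 H p q r z x y hzx hzy hxy hM
  by_cases hx : x ∈ c
  · obtain ⟨c1, c2, rfl, h2⟩ := last_occ hx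
    have h3 : nd c2 < nd (c1 ++ x :: c2) :=
      nd_lt (fun b hb => by simp [hb]) hx h2
    have h3' : nr c2 ≤ nr (c1 ++ x :: c2) :=
      nr_le ((List.sublist_cons_self x c2).trans (List.sublist_append_right c1 (x :: c2)))
    have h4 := hIH c2 (Or.inr ⟨h3', h3⟩) p (q ++ x :: c1) r z x y hzx hzy hxy
    have e : ∀ a b : List ℕ, p ++ (a ++ (b ++ ((q ++ x :: c1) ++ x :: (c2 ++ y :: r)))) =
        p ++ (a ++ (b ++ (q ++ x :: ((c1 ++ x :: c2) ++ y :: r)))) := by
      intro a b
      simp
    rw [e, e] at h4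
    exact h4 (fun a ha => hM a (by simp [ha]))
  by_cases hy : y ∈ c
  · obtain ⟨c1, c2, rfl, h2⟩ := List.eq_append_cons_of_mem hy
    have h3 : nd c1 < nd (c1 ++ y :: c2) :=
      nd_lt (fun b hb => by simp [hb]) hy h2
    have h3' : nr c1 ≤ nr (c1 ++ y :: c2) := nr_le (List.sublist_append_left c1 (y :: c2))
    have h4 := hIH c1 (Or.inr ⟨h3', h3⟩) p q (c2 ++ y :: r) z x y hzx hzy hxy
    have e : ∀ a b : List ℕ, p ++ (a ++ (b ++ (q ++ x :: (c1 ++ y :: (c2 ++ y :: r))))) =
        p ++ (a ++ (b ++ (q ++ x :: ((c1 ++ y :: c2) ++ y :: r)))) := by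
      intro a b
      simp
    rw [e, e] at h4
    exact h4 (fun a ha => hM a (by simp [ha]))
  by_cases hzc : z ∈ c
  · -- all letters of the tokens are in the factor `x c y`
    set T := q ++ x :: (c ++ y :: r) with hT
    have hw : ∀ d ∈ x :: (c ++ [y]), 2 ≤ (p ++ ((tk n z x 0 ++ tk n z y 1) ++ T)).count d := by
      intro d hd
      have hx1 : 1 ≤ (tk n z x 0).count x := by
        rw [Nat.one_le_iff_ne_zero, Ne, List.count_eq_zero]
        simp [tk]
      have hy1 : 1 ≤ (tk n z y 1).count y := by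
        rw [Nat.one_le_iff_ne_zero, Ne, List.count_eq_zero]
        simp [tk]
      have hx2 : 1 ≤ T.count x := by
        rw [Nat.one_le_iff_ne_zero, Ne, List.count_eq_zero]
        simp [hT]
      have hy2 : 1 ≤ T.count y := by
        rw [Nat.one_le_iff_ne_zero, Ne, List.count_eq_zero]
        simp [hT]
      rcases List.mem_cons.1 hd with h1 | h1
      · rw [h1]
        simp only [List.count_append]
        omega
      · rcases List.mem_append.1 h1 with h2 | h2
        · have h3 := hM d h2
          simp only [List.append_assoc]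
          exact h3
        · rw [List.mem_singleton] at h2
          rw [h2]
          simp only [List.count_append]
          omega
    have hmem : ∀ a ∈ tk n z x 0 ++ tk n z y 1, a ∈ x :: (c ++ [y]) := by
      intro a ha
      have h1 : a = z ∨ a = x ∨ a = y := by
        rcases List.mem_append.1 ha with h2 | h2
        · unfold tk at h2
          rcases List.mem_append.1 h2 with h4 | h4
          · exact Or.inl (List.eq_of_mem_replicate h4)
          · rcases List.mem_cons.1 h4 with h5 | h5
            · exact Or.inr (Or.inl h5)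
            · exact Or.inl (List.eq_of_mem_replicate h5)
        · unfold tk at h2
          rcases List.mem_append.1 h2 with h4 | h4
          · exact Or.inl (List.eq_of_mem_replicate h4)
          · rcases List.mem_cons.1 h4 with h5 | h5
            · exact Or.inr (Or.inr h5)
            · exact Or.inl (List.eq_of_mem_replicate h5)
      rcases h1 with rfl | rfl | rfl
      · simp [hzc]
      · simp
      · simp
    have key := Pool.Agent.MWE.H11.plm (fun _ => false)
      (fun D => RR β (p ++ ((tk n z x 0 ++ tk n z y 1) ++ T)) (p ++ (D ++ T)))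
      (tk n z x 0 ++ tk n z y 1) (tk n z y 1 ++ tk n z x 0) List.perm_append_comm
      (by simp) (by
        intro A C a b hp _ hab _ hE
        refine β.trans hE ?_
        have ha : a ∈ x :: (c ++ [y]) := hmem a (hp.mem_iff.1 (by simp))
        have hb : b ∈ x :: (c ++ [y]) := hmem b (hp.mem_iff.1 (by simp))
        have h5 := (hlcf β hz.ff hz.zz (p ++ A) (C ++ q) (x :: (c ++ [y])) r a b ha hb).1 (by
          intro d hd
          have h6 := hw d hd
          have h7 : ((p ++ A) ++ a :: b :: ((C ++ q) ++ ((x :: (c ++ [y])) ++ r))).Perm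
              (p ++ ((tk n z x 0 ++ tk n z y 1) ++ T)) := by
            have h8 : (p ++ A) ++ a :: b :: ((C ++ q) ++ ((x :: (c ++ [y])) ++ r)) =
                p ++ ((A ++ a :: b :: C) ++ T) := by
              simp [hT]
            rw [h8]
            exact (hp.append_right T).append_left p
          rw [h7.count_eq]
          exact h6)
        have e1 : ∀ u v : ℕ, (p ++ A) ++ u :: v :: ((C ++ q) ++ ((x :: (c ++ [y])) ++ r)) =
            p ++ ((A ++ u :: v :: C) ++ T) := by
          intro u v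
          simp [hT]
        rw [e1, e1] at h5
        exact h5) (RR.refl _)
    simpa using key
  exact main hc0 H p q r z x y hM hzc hx hy

end Pool.Agent.MWFE.H98
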